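import Pool.Agent.Q5.GoodTri.Example

set_option autoImplicit false

namespace Pool.Agent.Results.MP_f89e7b_al.HomotopyInvariance

open CategoryTheory Limits Pretriangulated Triangulated Q5.GoodTri

/-- There are a triangulated category and two chain homotopic maps of exact triangles in it of which
the first is Verdier good and the second is not. -/
theorem result : ∃ (C : Type 1) (_ : Category.{1} C) (_ : HasZeroObject C) (_ : HasShift C ℤ)
    (_ : Preadditive C) (_ : ∀ n : ℤ, (shiftFunctor C n).Additive) (_ : Pretriangulated C)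
    (_ : IsTriangulated C) (T T' : Triangle C) (hT : T ∈ distTriang C) (hT' : T' ∈ distTriang C)
    (φ ψ : T ⟶ T'), ChainHomotopic φ ψ ∧ IsVerdierGood hT hT' φ ∧ ¬ IsVerdierGood hT hT' ψ := by
  obtain ⟨Z, v, w, hT⟩ := distinguished_cocone_triangle (dg.map uAb)
  obtain ⟨Z', v', w', hT'⟩ := distinguished_cocone_triangle (dg.map gAb)
  obtain ⟨a, c₂, c₃, ha, h0, h1⟩ := exists_map hyp hT hT'
  have d₁ : dg.map uAb ≫ (0 : dg.obj (cyc 8) ⟶ dg.obj (cyc 4)) =
      (0 : dg.obj (cyc 4) ⟶ dg.obj (cyc 8)) ≫ dg.map gAb := by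
    rw [zero_comp, comp_zero]
  have d₂ : v ≫ w ≫ a = (0 : dg.obj (cyc 8) ⟶ dg.obj (cyc 4)) ≫ v' := by
    rw [c₂, zero_comp]
    exact comp_distTriang_mor_zero₁₂ _ hT'
  have d₃ : w ≫ (0 : dg.obj (cyc 4) ⟶ dg.obj (cyc 8))⟦(1 : ℤ)⟧' = (w ≫ a) ≫ w' := by
    rw [Functor.map_zero, comp_zero, Category.assoc, ha]
  exact ⟨DAb, inferInstance, inferInstance, inferInstance, inferInstance, inferInstance,
    inferInstance, inferInstance, _, _, hT, hT',
    Triangle.homMk _ _ (dg.map uAb) (dg.map gAb) (w ≫ a) rfl c₂ c₃,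
    Triangle.homMk (Triangle.mk (dg.map uAb) v w) (Triangle.mk (dg.map gAb) v' w') 0 0 (w ≫ a)
      d₁ d₂ d₃, homotopic_zero _ _ _ _ _ _ _, h1, not_verdierGood_zero hT hT' hyp.hom h0⟩

end Pool.Agent.Results.MP_f89e7b_al.HomotopyInvariance
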